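import Pool.Agent.H966Z.QM.Values

set_option autoImplicit false

namespace Pool.Agent.Results.MP_dd8059_ag.AQuadraticValues

open Pool.Agent.H966Z.QM

theorem result : ∀ (n a : ℕ) (τ : ℝ), 2 ≤ n →
    (8 * a ≤ n ^ 2 ∨ ∃ k i j : ℕ, 1 ≤ k ∧ 2 * k < n ∧ k + i + j < n ∧ a = i + k * j ∧
      2 * a ≤ (k + 1) * (n - 2)) →
    (n : ℝ) < 2 * τ → τ ^ 2 + a = n * τ → VGMin (τ ^ 2) :=
  values_irr

end Pool.Agent.Results.MP_dd8059_ag.AQuadraticValues
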