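import Pool.Agent.H966Z.QM.Scaling

set_option autoImplicit false

namespace Pool.Agent.Results.MP_dd8059_ag.BScaling

open Pool.Agent.H966Z.QM

theorem result : ∀ (s : ℝ) (e : ℕ), 1 ≤ s → 1 ≤ e → VGMin s → VGMin ((e : ℝ) ^ 2 * s) :=
  fun _ _ hs he h => VGMin_scale hs he h

end Pool.Agent.Results.MP_dd8059_ag.BScaling
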