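import Pool.Agent.H966Z.QM.Values

set_option autoImplicit false

namespace Pool.Agent.Results.MP_dd8059_ag.CRationalValues

open Pool.Agent.H966Z.QM

theorem result : ∀ p q : ℕ, 2 ≤ q →
    (q : ℝ) + Real.sqrt (2 * q - (q % 2 : ℕ)) < 2 * ((p : ℝ) / q) → VGMin (((p : ℝ) / q) ^ 2) :=
  values_rat

end Pool.Agent.Results.MP_dd8059_ag.CRationalValues
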